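import Pool.Agent.W5h16.Pseudo.PA
import Pool.Agent.W5h16.Pseudo.Jordan

/-!
For every `n ≥ 2` and every simple arrangement of `n` pseudolines in the Euclidean plane, the radius
of the pseudoline arrangement graph is at most `⌊3 (n - 1) / 4⌋`. In particular this holds for every
odd `n ≥ 3`, which is the statement asked for in Q1.
-/

namespace Pool.Agent.Results.MP_669436_co.RadiusBound

open Set Topology
open Pool.Agent.W5h16.Pseudo

/-- The Euclidean plane. -/
abbrev Plane : Type := EuclideanSpace ℝ (Fin 2)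

/-- `x` and `y` lie strictly on different sides of the set `S`: both are off `S`, and they lie in
different connected components of the complement of `S`. -/
def OnDifferentSides (S : Set Plane) (x y : Plane) : Prop :=
  x ∉ S ∧ y ∉ S ∧ y ∉ connectedComponentIn Sᶜ x

/-- A simple arrangement of `n` pseudolines in the Euclidean plane. The pseudolines are the images of
proper embeddings of `ℝ`; every two of them cross exactly once, that is, they meet in exactly one
point and each of them has points on both sides of the other; no point lies on three of them. -/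
structure Arrangement (n : ℕ) where
  /-- the parametrisations of the pseudolines -/
  curve : Fin n → ℝ → Plane
  /-- each parametrisation is a proper map -/
  proper : ∀ i, IsProperMap (curve i)
  /-- each parametrisation is a topological embedding -/
  embedding : ∀ i, IsEmbedding (curve i)
  /-- every two pseudolines meet in exactly one point -/
  meet : ∀ i j, i ≠ j → ∃! p, p ∈ range (curve i) ∩ range (curve j)
  /-- every two pseudolines cross: `j` has points on both sides of `i` -/
  cross : ∀ i j, i ≠ j → ∃ s t, OnDifferentSides (range (curve i)) (curve j s) (curve j t)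
  /-- no point lies on three pseudolines -/
  simple : ∀ i j k, i ≠ j → i ≠ k → j ≠ k →
    range (curve i) ∩ range (curve j) ∩ range (curve k) = ∅

namespace Arrangement

variable {n : ℕ} (A : Arrangement n)

/-- The point `p` is a crossing point: it lies on two different pseudolines. -/
def IsCrossing (p : Plane) : Prop :=
  ∃ i j, i ≠ j ∧ p ∈ range (A.curve i) ∧ p ∈ range (A.curve j)

/-- The pseudoline arrangement graph: its vertices are the crossing points, and two of them are
adjacent when they are joined by a segment of a pseudoline containing no other crossing. -/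
def graph : SimpleGraph {p : Plane // A.IsCrossing p} where
  Adj p q := p ≠ q ∧ ∃ i s t, A.curve i s = p.1 ∧ A.curve i t = q.1 ∧
    ∀ r, (s < r ∧ r < t) ∨ (t < r ∧ r < s) → ¬ A.IsCrossing (A.curve i r)
  symm := ⟨by
    rintro p q ⟨h, i, s, t, h1, h2, h3⟩
    exact ⟨h.symm, i, t, s, h2, h1, fun r hr => h3 r (by tauto)⟩⟩
  loopless := ⟨fun p h => h.1 rfl⟩

end Arrangement

/-! ### From the topological arrangement to positions and sides -/

/-- the plane as `ℂ` -/
noncomputable def toC : Plane ≃ₜ ℂ := (Complex.orthonormalBasisOneI.repr.symm).toHomeomorph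

/-- among three points off a pseudoline, two lie in the same component of its complement -/
lemma plane_two_components {γ : ℝ → Plane} (hγ : IsClosedEmbedding γ) {x y z : Plane}
    (hx : x ∉ range γ) (hy : y ∉ range γ) (hz : z ∉ range γ) :
    y ∈ connectedComponentIn (range γ)ᶜ x ∨ z ∈ connectedComponentIn (range γ)ᶜ x ∨
      z ∈ connectedComponentIn (range γ)ᶜ y := by
  have hγ' : IsClosedEmbedding (toC ∘ γ) := toC.isClosedEmbedding.comp hγ
  have himg : toC '' (range γ)ᶜ = (range (toC ∘ γ))ᶜ := by
    rw [range_comp, image_compl_eq toC.bijective]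
  have hmem : ∀ p, p ∉ range γ → toC p ∉ range (toC ∘ γ) := by
    rintro p hp ⟨t, ht⟩
    exact hp ⟨t, toC.injective ht⟩
  have key : ∀ p q, p ∉ range γ →
      toC q ∈ connectedComponentIn (range (toC ∘ γ))ᶜ (toC p) →
      q ∈ connectedComponentIn (range γ)ᶜ p := by
    intro p q hp h
    rw [← himg, ← toC.image_connectedComponentIn (show p ∈ (range γ)ᶜ from hp)] at h
    obtain ⟨q', hq', he⟩ := h
    rw [← toC.injective he]
    exact hq'
  rcases two_components hγ' (hmem x hx) (hmem y hy) (hmem z hz) with h | h | h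
  · exact Or.inl (key x y hx h)
  · exact Or.inr (Or.inl (key x z hx h))
  · exact Or.inr (Or.inr (key y z hy h))

namespace Arrangement

variable {n : ℕ} (A : Arrangement n)

lemma closedEmb (i : Fin n) : IsClosedEmbedding (A.curve i) :=
  IsClosedEmbedding.of_isEmbedding_isClosedMap (A.embedding i) (A.proper i).isClosedMap

lemma exists_par (i j : Fin n) (h : i ≠ j) : ∃ s, A.curve i s ∈ range (A.curve j) := by
  obtain ⟨p, ⟨⟨s, hs⟩, hp⟩, -⟩ := A.meet i j h
  exact ⟨s, by rw [hs]; exact hp⟩

open Classical in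
/-- the parameter on `i` of the crossing with `j` -/
noncomputable def par (i j : Fin n) : ℝ := if h : i ≠ j then (A.exists_par i j h).choose else 0

lemma par_mem {i j : Fin n} (h : i ≠ j) : A.curve i (A.par i j) ∈ range (A.curve j) := by
  unfold par
  rw [dif_pos h]
  exact (A.exists_par i j h).choose_spec

lemma par_unique {i j : Fin n} (h : i ≠ j) {s : ℝ} (hs : A.curve i s ∈ range (A.curve j)) :
    s = A.par i j := by
  obtain ⟨p, -, hp⟩ := A.meet i j h
  have h1 := hp (A.curve i s) ⟨⟨s, rfl⟩, hs⟩
  have h2 := hp (A.curve i (A.par i j)) ⟨⟨_, rfl⟩, A.par_mem h⟩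
  exact (A.embedding i).injective (h1.trans h2.symm)

lemma par_comm {i j : Fin n} (h : i ≠ j) :
    A.curve i (A.par i j) = A.curve j (A.par j i) := by
  obtain ⟨p, -, hp⟩ := A.meet i j h
  have h1 := hp (A.curve i (A.par i j)) ⟨⟨_, rfl⟩, A.par_mem h⟩
  have h2 := hp (A.curve j (A.par j i)) ⟨A.par_mem h.symm, ⟨_, rfl⟩⟩
  exact h1.trans h2.symm

lemma par_ne {i j k : Fin n} (h1 : j ≠ i) (h2 : k ≠ i) (h3 : j ≠ k) : A.par i j ≠ A.par i k := by
  intro h
  have h4 := A.simple i j k h1.symm h2.symm h3
  have : A.curve i (A.par i j) ∈ (∅ : Set Plane) := by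
    rw [← h4]
    exact ⟨⟨⟨_, rfl⟩, A.par_mem h1.symm⟩, by rw [h]; exact A.par_mem h2.symm⟩
  exact this

/-- a crossing of `i` with another line is off `l` -/
lemma not_mem {l i j : Fin n} (h1 : l ≠ i) (h2 : j ≠ i) (h3 : l ≠ j) :
    A.curve i (A.par i j) ∉ range (A.curve l) := by
  intro h
  exact A.par_ne h2 h1 h3.symm (A.par_unique h1.symm h)

/-- two points of `i` on the same side of the crossing with `l` lie in the same component -/
lemma same_comp {l i : Fin n} (h : l ≠ i) {s t : ℝ}
    (hst : ∀ r ∈ uIcc s t, r ≠ A.par i l) :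
    A.curve i t ∈ connectedComponentIn (range (A.curve l))ᶜ (A.curve i s) := by
  have h1 : IsPreconnected (A.curve i '' uIcc s t) :=
    isPreconnected_uIcc.image _ (A.embedding i).continuous.continuousOn
  refine h1.subset_connectedComponentIn (mem_image_of_mem _ left_mem_uIcc) ?_
    (mem_image_of_mem _ right_mem_uIcc)
  rintro _ ⟨r, hr, rfl⟩ hmem
  exact hst r hr (A.par_unique h.symm hmem)

lemma comp_symm {S : Set Plane} {x y : Plane} (hx : x ∉ S)
    (h : y ∈ connectedComponentIn Sᶜ x) : x ∈ connectedComponentIn Sᶜ y := by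
  rw [← connectedComponentIn_eq h]
  exact mem_connectedComponentIn hx

lemma comp_trans {S : Set Plane} {x y z : Plane}
    (h : y ∈ connectedComponentIn Sᶜ x) (h' : z ∈ connectedComponentIn Sᶜ y) :
    z ∈ connectedComponentIn Sᶜ x := by
  rw [connectedComponentIn_eq h]
  exact h'

/-- points of `i` separated by the crossing with `l` lie in different components -/
lemma diff_comp {l i : Fin n} (h : l ≠ i) {s t : ℝ} (hs : s < A.par i l) (ht : A.par i l < t) :
    A.curve i t ∉ connectedComponentIn (range (A.curve l))ᶜ (A.curve i s) := by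
  have hoff : ∀ r, r ≠ A.par i l → A.curve i r ∉ range (A.curve l) := by
    intro r hr hmem
    exact hr (A.par_unique h.symm hmem)
  -- rays
  have left : ∀ r, r < A.par i l →
      A.curve i r ∈ connectedComponentIn (range (A.curve l))ᶜ (A.curve i s) := by
    intro r hr
    apply A.same_comp h
    intro r' hr'
    rw [mem_uIcc] at hr'
    rcases hr' with h' | h'
    · exact ne_of_lt (lt_of_le_of_lt h'.2 hr)
    · exact ne_of_lt (lt_of_le_of_lt h'.2 hs)
  have right : ∀ r, A.par i l < r →
      A.curve i r ∈ connectedComponentIn (range (A.curve l))ᶜ (A.curve i t) := by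
    intro r hr
    apply A.same_comp h
    intro r' hr'
    rw [mem_uIcc] at hr'
    rcases hr' with h' | h'
    · exact (ne_of_lt (lt_of_lt_of_le ht h'.1)).symm
    · exact (ne_of_lt (lt_of_lt_of_le hr h'.1)).symm
  intro hcon
  obtain ⟨a, b, ha, hb, hab⟩ := A.cross l i h
  have hane : a ≠ A.par i l := by
    rintro rfl; exact ha (A.par_mem h.symm)
  have hbne : b ≠ A.par i l := by
    rintro rfl; exact hb (A.par_mem h.symm)
  have all : ∀ r, r ≠ A.par i l →
      A.curve i r ∈ connectedComponentIn (range (A.curve l))ᶜ (A.curve i s) := by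
    intro r hr
    rcases lt_or_gt_of_ne hr with h' | h'
    · exact left r h'
    · exact comp_trans hcon (right r h')
  exact hab (comp_trans (comp_symm (hoff s (ne_of_lt hs)) (all a hane)) (all b hbne))

lemma exists_base (hn : 2 ≤ n) (l : Fin n) : ∃ p : Plane, p ∉ range (A.curve l) := by
  have : ∃ j : Fin n, l ≠ j := by
    by_cases h : l.1 = 0
    · exact ⟨⟨1, by omega⟩, by intro h'; rw [h'] at h; simp at h⟩
    · exact ⟨⟨0, by omega⟩, by intro h'; apply h; rw [h']⟩
  obtain ⟨j, hj⟩ := this
  obtain ⟨s, t, h1, -⟩ := A.cross l j hj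
  exact ⟨_, h1⟩

/-- a base point off `l` -/
noncomputable def base (hn : 2 ≤ n) (l : Fin n) : Plane := (A.exists_base hn l).choose

lemma base_spec (hn : 2 ≤ n) (l : Fin n) : A.base hn l ∉ range (A.curve l) :=
  (A.exists_base hn l).choose_spec

/-- the side of `l` containing the base point -/
def sd (hn : 2 ≤ n) (l : Fin n) (p : Plane) : Prop :=
  p ∈ connectedComponentIn (range (A.curve l))ᶜ (A.base hn l)

lemma sd_iff (hn : 2 ≤ n) (l : Fin n) {x y : Plane} (hx : x ∉ range (A.curve l))
    (hy : y ∉ range (A.curve l)) :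
    (A.sd hn l x ↔ A.sd hn l y) ↔ y ∈ connectedComponentIn (range (A.curve l))ᶜ x := by
  have hb := A.base_spec hn l
  unfold sd
  constructor
  · intro h
    by_cases h1 : x ∈ connectedComponentIn (range (A.curve l))ᶜ (A.base hn l)
    · exact comp_trans (comp_symm hb h1) (h.mp h1)
    · have h2 : y ∉ connectedComponentIn (range (A.curve l))ᶜ (A.base hn l) :=
        fun h' => h1 (h.mpr h')
      rcases plane_two_components (A.closedEmb l) hb hx hy with h' | h' | h'
      · exact absurd h' h1
      · exact absurd h' h2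
      · exact h'
  · intro h
    exact ⟨fun h' => comp_trans h' h, fun h' => comp_trans h' (comp_symm hx h)⟩

open Classical in
/-- the vertex `i ∩ j` -/
noncomputable def vt (hn : 2 ≤ n) (i j : Fin n) : {p : Plane // A.IsCrossing p} :=
  if h : i ≠ j then ⟨A.curve i (A.par i j), i, j, h, ⟨_, rfl⟩, A.par_mem h⟩
  else ⟨A.curve ⟨0, by omega⟩ (A.par ⟨0, by omega⟩ ⟨1, by omega⟩), ⟨0, by omega⟩, ⟨1, by omega⟩,
    by simp, ⟨_, rfl⟩, A.par_mem (by simp)⟩

lemma vt_val (hn : 2 ≤ n) {i j : Fin n} (h : i ≠ j) :
    (A.vt hn i j).1 = A.curve i (A.par i j) := by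
  unfold vt
  rw [dif_pos h]

/-- the arrangement recorded by positions and sides -/
noncomputable def toPA (hn : 2 ≤ n) : PA (Fin n) {p : Plane // A.IsCrossing p} where
  pos := A.par
  side l i j := A.sd hn l (A.curve i (A.par i j))
  G := A.graph
  vtx := A.vt hn
  pos_inj i j k h1 h2 h3 := A.par_ne h1 h2 h3
  side_comm l i j h := by rw [A.par_comm h]
  side_btw l i j k h1 h2 h3 h4 h5 := by
    have hx := A.not_mem h1 h2 h4
    have hy := A.not_mem h1 h3 h5
    rw [A.sd_iff hn l hx hy]
    have n1 := A.par_ne h2 h1 h4.symm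
    have n2 := A.par_ne h3 h1 h5.symm
    constructor
    · intro hc
      by_contra hb
      apply hc
      apply A.same_comp h1
      rintro r hr rfl
      apply hb
      rw [mem_uIcc] at hr
      unfold Arr.Btw
      rcases hr with h | h
      · exact Or.inl ⟨lt_of_le_of_ne h.1 n1, lt_of_le_of_ne h.2 n2.symm⟩
      · exact Or.inr ⟨lt_of_le_of_ne h.1 n2, lt_of_le_of_ne h.2 n1.symm⟩
    · rintro (h | h)
      · exact A.diff_comp h1 h.1 h.2
      · intro hc
        exact A.diff_comp h1 h.1 h.2 (comp_symm hx hc)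
  vtx_comm i j h := by
    apply Subtype.ext
    rw [A.vt_val hn h, A.vt_val hn h.symm, A.par_comm h]
  adj i j k h1 h2 h3 h := by
    refine ⟨?_, i, A.par i j, A.par i k, (A.vt_val hn h1.symm).symm, (A.vt_val hn h2.symm).symm,
      ?_⟩
    · intro he
      have := congrArg Subtype.val he
      rw [A.vt_val hn h1.symm, A.vt_val hn h2.symm] at this
      exact A.par_ne h1 h2 h3 ((A.embedding i).injective this)
    · rintro r hr ⟨l, m, hlm, hl, hm⟩
      have key : ∀ l, l ≠ i → A.curve i r ∉ range (A.curve l) := by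
        intro l hl hmem
        have e := A.par_unique (Ne.symm hl) hmem
        have := h l hl
        rw [← e] at this
        rcases hr with hr | hr
        · exact this.1 hr
        · exact this.2 hr
      by_cases hli : l = i
      · exact key m (by rintro rfl; exact hlm hli) hm
      · exact key l hli hl

end Arrangement

/-! ### Sanity check: the definition is satisfied by straight lines in general position -/

/-- the tangent lines `y = 2 i x - i ^ 2` of the parabola `y = x ^ 2` -/
noncomputable def tangent (a t : ℝ) : Plane := !₂[t, 2 * a * t - a ^ 2]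

lemma tangent_zero (a t : ℝ) : (tangent a t) 0 = t := by simp [tangent]

lemma tangent_one (a t : ℝ) : (tangent a t) 1 = 2 * a * t - a ^ 2 := by simp [tangent]

lemma mem_tangent (a : ℝ) (p : Plane) :
    p ∈ range (tangent a) ↔ p 1 - 2 * a * p 0 + a ^ 2 = 0 := by
  constructor
  · rintro ⟨t, rfl⟩
    rw [tangent_zero, tangent_one]; ring
  · intro h
    refine ⟨p 0, ?_⟩
    ext k
    fin_cases k
    · exact tangent_zero a _
    · show (tangent a (p 0)) 1 = p 1
      rw [tangent_one]; linarith

lemma tangent_sides (a : ℝ) {x y : Plane} (hx : x 1 - 2 * a * x 0 + a ^ 2 < 0)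
    (hy : 0 < y 1 - 2 * a * y 0 + a ^ 2) : OnDifferentSides (range (tangent a)) x y := by
  refine ⟨fun h => ?_, fun h => ?_, fun h => ?_⟩
  · rw [mem_tangent] at h; linarith
  · rw [mem_tangent] at h; linarith
  · have hxS : x ∈ (range (tangent a))ᶜ := by
      intro h'; rw [mem_tangent] at h'; linarith
    have hc : IsPreconnected ((fun p : Plane => p 1 - 2 * a * p 0 + a ^ 2) ''
        connectedComponentIn (range (tangent a))ᶜ x) := by
      apply isPreconnected_connectedComponentIn.image
      fun_prop
    have h0 : (0 : ℝ) ∈ (fun p : Plane => p 1 - 2 * a * p 0 + a ^ 2) ''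
        connectedComponentIn (range (tangent a))ᶜ x :=
      hc.ordConnected.out ⟨x, mem_connectedComponentIn hxS, rfl⟩ ⟨y, h, rfl⟩ ⟨hx.le, hy.le⟩
    obtain ⟨z, hz, hz0⟩ := h0
    exact (connectedComponentIn_subset _ _ hz) ((mem_tangent a z).mpr hz0)

lemma tangent_closedEmb (a : ℝ) : IsClosedEmbedding (tangent a) := by
  have h1 : Function.LeftInverse (fun p : Plane => p 0) (tangent a) := fun t => tangent_zero a t
  refine h1.isClosedEmbedding (by fun_prop) ?_
  unfold tangent
  fun_prop

/-- The tangent lines of a parabola form an arrangement of `n` pseudolines. -/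
noncomputable def lineArrangement (n : ℕ) : Arrangement n where
  curve i := tangent (i : ℕ)
  proper i := (tangent_closedEmb _).isProperMap
  embedding i := (tangent_closedEmb _).isEmbedding
  meet i j hij := by
    have hne : ((j : ℕ) : ℝ) - ((i : ℕ) : ℝ) ≠ 0 := by
      rw [sub_ne_zero]
      exact fun h => hij (Fin.ext (by exact_mod_cast h.symm))
    refine ⟨tangent (i : ℕ) ((((i : ℕ) : ℝ) + ((j : ℕ) : ℝ)) / 2), ⟨⟨_, rfl⟩, ?_⟩, ?_⟩
    · rw [mem_tangent, tangent_zero, tangent_one]; ring
    · rintro p ⟨⟨t, rfl⟩, hp⟩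
      rw [mem_tangent, tangent_zero, tangent_one] at hp
      congr 1
      apply mul_left_cancel₀ hne
      linear_combination -hp / 2
  cross i j hij := by
    have hne : ((j : ℕ) : ℝ) - ((i : ℕ) : ℝ) ≠ 0 := by
      rw [sub_ne_zero]
      exact fun h => hij (Fin.ext (by exact_mod_cast h.symm))
    have key : ∀ t : ℝ, (tangent ((j : ℕ) : ℝ) ((((i : ℕ) : ℝ) + ((j : ℕ) : ℝ)) / 2 + t)) 1 -
        2 * ((i : ℕ) : ℝ) * (tangent ((j : ℕ) : ℝ) ((((i : ℕ) : ℝ) + ((j : ℕ) : ℝ)) / 2 + t)) 0 +
        ((i : ℕ) : ℝ) ^ 2 = 2 * (((j : ℕ) : ℝ) - ((i : ℕ) : ℝ)) * t := by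
      intro t; rw [tangent_zero, tangent_one]; ring
    rcases lt_or_gt_of_ne hne with h | h
    · refine ⟨(((i : ℕ) : ℝ) + ((j : ℕ) : ℝ)) / 2 + 1, (((i : ℕ) : ℝ) + ((j : ℕ) : ℝ)) / 2 + (-1),
        tangent_sides _ ?_ ?_⟩
      · rw [key]; linarith
      · rw [key]; linarith
    · refine ⟨(((i : ℕ) : ℝ) + ((j : ℕ) : ℝ)) / 2 + (-1), (((i : ℕ) : ℝ) + ((j : ℕ) : ℝ)) / 2 + 1,
        tangent_sides _ ?_ ?_⟩
      · rw [key]; linarith
      · rw [key]; linarith
  simple i j k hij hik hjk := by
    ext p
    simp only [mem_inter_iff, mem_empty_iff_false, iff_false, not_and, and_imp]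
    rintro ⟨t, rfl⟩ h1 h2
    rw [mem_tangent, tangent_zero, tangent_one] at h1 h2
    have n1 : ((j : ℕ) : ℝ) - ((i : ℕ) : ℝ) ≠ 0 := by
      rw [sub_ne_zero]
      exact fun h => hij (Fin.ext (by exact_mod_cast h.symm))
    have n2 : ((k : ℕ) : ℝ) - ((i : ℕ) : ℝ) ≠ 0 := by
      rw [sub_ne_zero]
      exact fun h => hik (Fin.ext (by exact_mod_cast h.symm))
    have e1 : 2 * t = ((i : ℕ) : ℝ) + ((j : ℕ) : ℝ) := by
      apply mul_left_cancel₀ n1
      linear_combination -h1
    have e2 : 2 * t = ((i : ℕ) : ℝ) + ((k : ℕ) : ℝ) := by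
      apply mul_left_cancel₀ n2
      linear_combination -h2
    apply hjk
    apply Fin.ext
    have : ((j : ℕ) : ℝ) = ((k : ℕ) : ℝ) := by linarith
    exact_mod_cast this

/-- **The radius conjecture.** For every `n ≥ 2` (in particular for every odd `n ≥ 3`) and every
simple arrangement of `n` pseudolines, the radius of the arrangement graph is at most
`⌊3 (n - 1) / 4⌋`. -/
theorem result : ∀ n : ℕ, 2 ≤ n → ∀ A : Arrangement n,
    A.graph.radius ≤ ((3 * (n - 1) / 4 : ℕ) : ℕ∞) := by
  intro n hn A
  obtain ⟨a, b, -, h⟩ := (A.toPA hn).radius_core (by rw [Fintype.card_fin]; exact hn)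
  rw [Fintype.card_fin] at h
  refine (SimpleGraph.radius_le_eccent (u := A.vt hn a b)).trans ?_
  rw [SimpleGraph.eccent_le_iff]
  rintro ⟨p, c, d, hcd, ⟨s, hs⟩, hd⟩
  have e : A.vt hn c d = ⟨p, c, d, hcd, ⟨s, hs⟩, hd⟩ := by
    apply Subtype.ext
    rw [A.vt_val hn hcd]
    have h1 : s = A.par c d := A.par_unique hcd (by rw [hs]; exact hd)
    rw [← h1, hs]
  rw [← e]
  exact h c d hcd

end Pool.Agent.Results.MP_669436_co.RadiusBound
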